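import Mathlib
import Pool.Agent.Helper579.CgDefs
import Pool.Agent.Helper579.CgMain6

/-!
MP_28e48f_an, Q1: the orders of the stopping times of the conjugate gradient method and of the
randomized coordinate descent for positive definite matrices with Haar distributed eigenvectors and
the eigenvalues `1, 2^(-p), ..., n^(-p)`.
-/

set_option autoImplicit false

namespace Pool.Agent.Results.MP_28e48f_an.CGversusRCD

open MeasureTheory Filter Pool.Agent.Helper579.Cg
open scoped ENNReal Topology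

/-- `(T_RCD / n) / T_CG` is of the exact order `a n` in probability. -/
def RatioThetaP (p ε : ℝ) (a : ℕ → ℝ) : Prop :=
  ∀ δ : ℝ, 0 < δ → ∃ c C : ℝ, 0 < c ∧ 0 < C ∧ ∀ᶠ n : ℕ in atTop, ENNReal.ofReal (1 - δ) ≤
    Pr p ε n {T | ∃ m₁ m₂ : ℕ, T.1 = m₁ ∧ T.2 = m₂ ∧ 0 < m₁ ∧
      c * a n ≤ ((m₂ : ℝ) / n) / m₁ ∧ ((m₂ : ℝ) / n) / m₁ ≤ C * a n}

/-- `(T_RCD / n) / T_CG = n^(θ + o(1))` in probability. -/
def RatioExponentP (p ε θ : ℝ) : Prop :=
  ∀ δ : ℝ, 0 < δ → Tendsto (fun n : ℕ => Pr p ε n {T | ∃ m₁ m₂ : ℕ, T.1 = m₁ ∧ T.2 = m₂ ∧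
    0 < m₁ ∧ (n : ℝ) ^ (θ - δ) ≤ ((m₂ : ℝ) / n) / m₁ ∧
    ((m₂ : ℝ) / n) / m₁ ≤ (n : ℝ) ^ (θ + δ)}) atTop (𝓝 1)

lemma ratio_theta {p ε : ℝ} {a b : ℕ → ℝ} (h1 : ThetaP (PrCG p ε) a)
    (h2 : ThetaP (PrRCD p ε) b) (ha : ∀ᶠ n : ℕ in atTop, 0 < a n)
    (hb : ∀ᶠ n : ℕ in atTop, 0 < b n) : RatioThetaP p ε (fun n => b n / n / a n) := by
  intro δ hδ
  obtain ⟨c, C, hc, hC, h⟩ := theta_combine h1 h2 δ hδ
  refine ⟨c / C, C / c, by positivity, by positivity, ?_⟩
  filter_upwards [h, ha, hb, eventually_ge_atTop 1] with n hn han hbn hn1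
  refine hn.trans (Pr_mono p ε ?_)
  rintro ⟨T₁, T₂⟩ ⟨m₁, m₂, g1, g2, g3, g4, g5, g6, g7⟩
  have hn0 : (0 : ℝ) < n := by exact_mod_cast hn1
  have hm : 0 < m₁ := g7 han hbn
  have hm' : (0 : ℝ) < m₁ := by exact_mod_cast hm
  refine ⟨m₁, m₂, g1, g2, hm, ?_, ?_⟩
  · have e : c / C * (b n / n / a n) = (c * b n / n) / (C * a n) := by
      field_simp
    rw [e]
    gcongr
  · have e : C / c * (b n / n / a n) = (C * b n / n) / (c * a n) := by
      field_simp
    rw [e]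
    gcongr

/-- **Main theorem.** For `0 < ε < 1`: the orders of `T_RCD`, `T_CG` and of the ratio
`(T_RCD / n) / T_CG`. -/
theorem result :
    (∀ p ε : ℝ, 0 < p → 0 < ε → ε < 1 →
      (p < 1 → ThetaP (PrRCD p ε) (fun n => (n : ℝ))) ∧
      (p = 1 → ExponentP (PrRCD p ε) (2 * (1 - ε) / (2 - ε))) ∧
      (1 < p → ThetaP (PrRCD p ε) (fun _ => 1)) ∧
      (p < 1 → ε < mstar p → ThetaP (PrCG p ε) (fun n => (n : ℝ) ^ (p / (p + 2))) ∧
        RatioThetaP p ε (fun n => (n : ℝ) ^ (-(p / (p + 2))))) ∧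
      (p < 1 → mstar p < ε → ThetaP (PrCG p ε) (fun _ => 1) ∧ RatioThetaP p ε (fun _ => 1)) ∧
      (p = 1 → ExponentP (PrCG p ε) ((1 - ε) / 3) ∧
        RatioExponentP p ε (-(ε / (2 - ε) + (1 - ε) / 3))) ∧
      (1 < p → ThetaP (PrCG p ε) (fun _ => 1) ∧ RatioThetaP p ε (fun n => 1 / (n : ℝ))) ∧
      (p < 1 → ∀ δ : ℝ, 0 < δ → ∃ c C : ℝ, 0 < c ∧ 0 < C ∧ ∀ᶠ n : ℕ in atTop,
        ENNReal.ofReal (1 - δ) ≤ Pr p ε n {T | ∃ m₁ m₂ : ℕ, T.1 = m₁ ∧ T.2 = m₂ ∧
          1 ≤ m₁ ∧ m₁ ≤ C * (n : ℝ) ^ (p / (p + 2)) ∧ c * n ≤ m₂ ∧ m₂ ≤ C * n})) ∧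
    (∀ p : ℝ, 0 < p → p < 1 / 3 → 0 < mstar p ∧ mstar p < 1) ∧
    (∀ p : ℝ, 1 / 3 ≤ p → mstar p = 1) ∧
    (∀ p ε : ℝ, 1 ≤ ε → ∀ n : ℕ, 1 ≤ n → Pr p ε n {(0, 0)} = 1) := by
  refine ⟨?_, ?_, ?_, ?_⟩
  · intro p ε hp hε hε1
    have hposn : ∀ᶠ n : ℕ in atTop, (0 : ℝ) < n := by
      filter_upwards [eventually_ge_atTop 1] with n hn
      exact_mod_cast hn
    refine ⟨fun h => rcd_lt hp h hε hε1, ?_, fun h => rcd_gt h hε hε1, ?_, ?_, ?_, ?_, ?_⟩
    · rintro rfl
      exact rcd_one hε hε1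
    · intro h hm
      refine ⟨cg_lt hp h hε hε1 hm, ?_⟩
      have h3 := ratio_theta (cg_lt hp h hε hε1 hm) (rcd_lt hp h hε hε1)
        (by filter_upwards [hposn] with n hn; positivity) hposn
      intro δ hδ
      obtain ⟨c, C, hc, hC, h4⟩ := h3 δ hδ
      refine ⟨c, C, hc, hC, ?_⟩
      filter_upwards [h4, hposn] with n hn hn0
      have e : (n : ℝ) / n / (n : ℝ) ^ (p / (p + 2)) = (n : ℝ) ^ (-(p / (p + 2))) := by
        rw [div_self hn0.ne', Real.rpow_neg hn0.le, one_div]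
      rw [e] at hn
      exact hn
    · intro h hm
      refine ⟨cg_lt' hp h hε1 hm, ?_⟩
      have h3 := ratio_theta (cg_lt' hp h hε1 hm) (rcd_lt hp h hε hε1)
        (by filter_upwards with n; exact one_pos) hposn
      intro δ hδ
      obtain ⟨c, C, hc, hC, h4⟩ := h3 δ hδ
      refine ⟨c, C, hc, hC, ?_⟩
      filter_upwards [h4, hposn] with n hn hn0
      have e : (n : ℝ) / n / 1 = 1 := by
        rw [div_self hn0.ne', div_one]
      rw [e] at hn
      exact hn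
    · rintro rfl
      refine ⟨cg_one hε hε1, ?_⟩
      intro δ hδ
      have h3 := exponent_combine (cg_one hε hε1) (rcd_one hε hε1) (δ / 2) (half_pos hδ)
      refine tendsto_of_tendsto_of_tendsto_of_le_of_le' h3 tendsto_const_nhds ?_ ?_
      · filter_upwards [hposn] with n hn0
        refine Pr_mono 1 ε ?_
        rintro ⟨T₁, T₂⟩ ⟨m₁, m₂, g1, g2, g3, g4, g5, g6⟩
        have hm' : (0 : ℝ) < m₁ := lt_of_lt_of_le (Real.rpow_pos_of_pos hn0 _) g3
        have h2ε : 2 - ε ≠ 0 := by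
          intro h
          linarith
        refine ⟨m₁, m₂, g1, g2, by exact_mod_cast hm', ?_, ?_⟩
        · rw [div_div, le_div_iff₀ (by positivity)]
          refine le_trans ?_ g5
          have e : (n : ℝ) ^ (2 * (1 - ε) / (2 - ε) - δ / 2)
              = (n : ℝ) ^ (-(ε / (2 - ε) + (1 - ε) / 3) - δ)
                * (n * (n : ℝ) ^ ((1 - ε) / 3 + δ / 2)) := by
            rw [← Real.rpow_one_add' hn0.le (by positivity), ← Real.rpow_add hn0]
            congr 1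
            field_simp
            ring
          rw [e]
          gcongr
        · rw [div_div, div_le_iff₀ (by positivity)]
          refine g6.trans ?_
          have e : (n : ℝ) ^ (2 * (1 - ε) / (2 - ε) + δ / 2)
              = (n : ℝ) ^ (-(ε / (2 - ε) + (1 - ε) / 3) + δ)
                * (n * (n : ℝ) ^ ((1 - ε) / 3 - δ / 2)) := by
            rw [mul_comm (n : ℝ), ← Real.rpow_add_one hn0.ne', ← Real.rpow_add hn0]
            congr 1
            field_simp
            ring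
          rw [e]
          gcongr
      · filter_upwards [eventually_ge_atTop 1] with n hn
        exact Pr_le_one 1 ε hn _
    · intro h
      refine ⟨cg_gt h hε hε1, ?_⟩
      have h3 := ratio_theta (cg_gt h hε hε1) (rcd_gt h hε hε1)
        (by filter_upwards with n; exact one_pos) (by filter_upwards with n; exact one_pos)
      intro δ hδ
      obtain ⟨c, C, hc, hC, h4⟩ := h3 δ hδ
      refine ⟨c, C, hc, hC, ?_⟩
      filter_upwards [h4] with n hn
      have e : (1 : ℝ) / n / 1 = 1 / n := div_one _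
      rw [e] at hn
      exact hn
    · intro h δ hδ
      obtain ⟨C₁, hC₁, hup⟩ := cg_lt_up hp h hε
      obtain ⟨c, C₂, hc, hC₂, hr⟩ := rcd_lt hp h hε hε1 (δ / 2) (half_pos hδ)
      refine ⟨c, max C₁ C₂, hc, lt_max_of_lt_left hC₁, ?_⟩
      have h1 := (Ev.and (half_pos hδ).le (le_refl 0) (hup (δ / 2)) (ev_pos 0))
      rw [add_zero] at h1
      unfold Ev at h1
      filter_upwards [h1, hr, eventually_ge_atTop 1] with n f1 f2 hn
      have k1 : (1 : ℝ≥0∞) - ENNReal.ofReal (δ / 2) ≤ PrCG p ε n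
          {T | ∃ m : ℕ, T = m ∧ 1 ≤ m ∧ m ≤ C₁ * (n : ℝ) ^ (p / (p + 2))} := by
        apply cg_pr p ε hn
        refine le_trans (measure_mono ?_) f1
        intro ξ hξ hh
        apply hξ
        obtain ⟨m, hm1, hm2, hm3⟩ := cg_between (cgLow_one hε1 hn hh.2) hh.1
        exact ⟨m, hm1, by exact_mod_cast hm2, hm3⟩
      have k2 : (1 : ℝ≥0∞) - ENNReal.ofReal (δ / 2) ≤ PrRCD p ε n
          {T | ∃ m : ℕ, T = m ∧ c * (n : ℝ) ≤ m ∧ m ≤ C₂ * (n : ℝ)} := by
        rw [ENNReal.ofReal_sub _ (by positivity), ENNReal.ofReal_one] at f2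
        exact f2
      have k3 := inter_ge p ε hn k1 k2
      rw [← ENNReal.ofReal_add (by positivity) (by positivity), add_halves] at k3
      refine (one_sub_ofReal hδ.le).trans (k3.trans (Pr_mono p ε ?_))
      rintro ⟨T₁, T₂⟩ ⟨⟨m₁, g1, g2, g3⟩, ⟨m₂, g4, g5, g6⟩⟩
      refine ⟨m₁, m₂, g1, g4, g2, g3.trans ?_, g5, g6.trans ?_⟩
      · exact mul_le_mul_of_nonneg_right (le_max_left _ _) (by positivity)
      · exact mul_le_mul_of_nonneg_right (le_max_right _ _) (by positivity)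
  · intro p hp hp3
    obtain ⟨Jc, h1, h2⟩ := exists_Jc hp (by linarith)
    rw [mstar_eq hp h1 h2]
    have hJ1 : 1 ≤ Jc := by
      by_contra h
      have : Jc = 0 := by omega
      rw [this] at h2
      push_cast at h2
      linarith
    unfold mprod
    have hfac : ∀ j ∈ Finset.Icc 1 Jc, 0 < ((j : ℝ) * p / (1 - ((j : ℝ) + 1) * p)) ^ 2 ∧
        ((j : ℝ) * p / (1 - ((j : ℝ) + 1) * p)) ^ 2 < 1 := by
      intro j hj
      obtain ⟨hj1, hj2⟩ := Finset.mem_Icc.1 hj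
      have hj1' : (1 : ℝ) ≤ j := by exact_mod_cast hj1
      have hj2' : (j : ℝ) ≤ Jc := by exact_mod_cast hj2
      have h3 : (2 * (j : ℝ) + 1) * p < 1 := by nlinarith
      have h4 : 0 < 1 - ((j : ℝ) + 1) * p := by nlinarith
      have h5 : 0 < (j : ℝ) * p / (1 - ((j : ℝ) + 1) * p) := by positivity
      refine ⟨by positivity, ?_⟩
      have h6 : (j : ℝ) * p / (1 - ((j : ℝ) + 1) * p) < 1 := by
        rw [div_lt_one h4]
        nlinarith
      nlinarith
    refine ⟨Finset.prod_pos fun j hj => (hfac j hj).1, ?_⟩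
    have h7 : ∏ j ∈ Finset.Icc 1 Jc, ((j : ℝ) * p / (1 - ((j : ℝ) + 1) * p)) ^ 2
        < ∏ _j ∈ Finset.Icc 1 Jc, (1 : ℝ) := by
      apply Finset.prod_lt_prod_of_nonempty
      · intro j hj
        exact (hfac j hj).1
      · intro j hj
        exact (hfac j hj).2
      · exact ⟨1, Finset.mem_Icc.2 ⟨le_rfl, hJ1⟩⟩
    simpa using h7
  · intro p hp
    unfold mstar
    apply Finset.prod_eq_one
    intro j hj
    exfalso
    rw [Finset.mem_filter, Finset.mem_Icc] at hj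
    have : (1 : ℝ) ≤ j := by exact_mod_cast hj.1.1
    nlinarith [hj.2]
  · intro p ε hε n hn
    apply le_antisymm (Pr_le_one p ε hn _)
    have h1 := Pr_ge p ε hn {(0, 0)} Set.univ Set.univ 0 0 0 (by simp) (by simp) (by
      intro U _ w hw _ μ _ _
      have h2 : {ω : ℕ → Fin n | (tcg (lam p) ε (fun k => ‖w k‖ ^ 2),
          trcd (um U) (lam p) ε w ω) ∉ ({(0, 0)} : Set (ℕ∞ × ℕ∞))} = ∅ := by
        ext ω
        simp only [Set.mem_ofPred_eq, Set.mem_empty_iff_false, iff_false, not_not,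
          Set.mem_singleton_iff, Prod.mk.injEq]
        have hE := qf_pos (fun k => lam_pos p k) hw
        constructor
        · have h3 : tcg (lam p) ε (fun k => ‖w k‖ ^ 2) ≤ (0 : ℕ) := by
            apply tcg_le (q := 1) (by simp) (by simp)
            simp only [Polynomial.eval_one, one_pow, mul_one]
            have : 0 < ∑ k : Fin n, lam p k * ‖w k‖ ^ 2 := hE
            nlinarith
          simpa using h3
        · have h3 : trcd (um U) (lam p) ε w ω ≤ (0 : ℕ) := by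
            apply trcd_le
            simp only [path]
            nlinarith
          simpa using h3
      rw [h2, measure_empty])
    simpa using h1

end Pool.Agent.Results.MP_28e48f_an.CGversusRCD
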